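import Pool.Agent.Helper54.DFH.PropT

/-!
Problem MP_59dd5b_al. For a group with property (T) the hypothesis of the
Dress-Farrell-Hsiang criterion holds only for families with a member of finite index.
-/

namespace Pool.Agent.Helper54.Kazhdan

open Pool.Agent.Helper54.DFH

universe u v

/-- Let `G` be a group with property (T) and a finite symmetric generating set `S`. If the
hypothesis of the Dress-Farrell-Hsiang criterion holds for `G` and a family `𝓕` of subgroups,
then some member of `𝓕` has finite index in `G`. -/
theorem result {G : Type u} [Group G] (hT : PropertyT G) (S : Set G) (_hfin : S.Finite)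
    (hsymm : ∀ s ∈ S, s⁻¹ ∈ S) (hgen : Subgroup.closure S = ⊤)
    (𝓕 : Set (Subgroup G)) (h𝓕 : IsFamily 𝓕) (hcrit : Criterion.{u, v} S 𝓕) :
    ∃ H ∈ 𝓕, H.FiniteIndex :=
  exists_finiteIndex hT (cosets_amenable hsymm hgen h𝓕.nonempty hcrit)

end Pool.Agent.Helper54.Kazhdan
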